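import Mathlib

/-! Naming parameters in a restriction of a small theory: definitions and lemmas. -/

namespace Pool.Agent.C59.Core

open FirstOrder FirstOrder.Language Set
open scoped Pointwise

universe u v w

section defs

variable (L : FirstOrder.Language.{u, v}) {M : Type w} [L.Structure M]

/-- the set `Φ(M)` -/
def QQ (φ : ℕ → Set M) : Set M := {x | ∃ i, x ∈ φ i}

/-- automorphisms of the induced structure on `Q`: permutations which preserve all traces of `∅`-definable sets -/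
def AutQ (Q : Set M) : Subgroup (Equiv.Perm Q) where
  carrier := {σ | ∀ (r : ℕ) (s : Set (Fin r → M)), (∅ : Set M).Definable L s → ∀ q : Fin r → Q,
    ((fun j => (q j : M)) ∈ s ↔ (fun j => ((σ (q j) : Q) : M)) ∈ s)}
  one_mem' := fun _ _ _ _ => Iff.rfl
  mul_mem' := by
    intro σ τ hσ hτ r s hs q
    rw [hτ r s hs q]
    exact hσ r s hs (fun j => τ (q j))
  inv_mem' := by
    intro σ hσ r s hs q
    have := hσ r s hs (fun j => σ⁻¹ (q j))
    simpa using this.symm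

variable {Q : Set M} {r : ℕ → ℕ}

/-- the relation on `Q` -/
def tr (D : ∀ n, Set (Fin (r n) → M)) (n : ℕ) : Set (Fin (r n) → Q) := {q | (fun j => (q j : M)) ∈ D n}

/-- its preimage under a permutation of `Q` -/
def mv (D : ∀ n, Set (Fin (r n) → M)) (σ : Equiv.Perm Q) (n : ℕ) : Set (Fin (r n) → Q) :=
  {q | (fun j => ((σ (q j) : Q) : M)) ∈ D n}

/-- the permutations in `AutQ` which fix the relations `D m`, `m ∈ F` -/
def Fixes (Q : Set M) (D : ∀ n, Set (Fin (r n) → M)) (F : Finset ℕ) (σ : Equiv.Perm Q) : Prop :=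
  σ ∈ AutQ L Q ∧ ∀ m ∈ F, mv D σ m = tr D m

/-- `J` is closed: outside `J` every relation has an infinite orbit under the automorphisms of `Q` which fix finitely
many relations with index in `J` -/
def Closed (Q : Set M) (D : ∀ n, Set (Fin (r n) → M)) (J : Set ℕ) : Prop :=
  ∀ F : Finset ℕ, (∀ m ∈ F, m ∈ J) → ∀ n, n ∉ J → {X | ∃ σ : Equiv.Perm Q, Fixes L Q D F σ ∧ X = mv D σ n}.Infinite

/-- `D i` is fixed by all automorphisms of `Q` which fix finitely many suitable relations `D m`, `m ∈ A` -/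
def Det (Q : Set M) (D : ∀ n, Set (Fin (r n) → M)) (A : Set ℕ) (i : ℕ) : Prop :=
  ∃ F : Finset ℕ, (∀ m ∈ F, m ∈ A) ∧ ∀ σ : Equiv.Perm Q, Fixes L Q D F σ → mv D σ i = tr D i

end defs

section proof

variable {L : FirstOrder.Language.{u, v}} {M : Type w} [L.Structure M]

/-- a set definable over a tuple is a fibre of a definable set -/
lemma ex_fam {t r : ℕ} (e : Fin t → M) {D : Set (Fin r → M)} (h : (range e).Definable L D) :
    ∃ E : Set (Fin t ⊕ Fin r → M), (∅ : Set M).Definable L E ∧ D = {q | Sum.elim e q ∈ E} := by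
  rw [definable_iff_exists_formula_sum] at h
  obtain ⟨φ, rfl⟩ := h
  have hg : ∀ x : range e, ∃ i, e i = x := fun x => x.2
  choose g hg using hg
  refine ⟨{v | (φ.relabel (Sum.map g id)).Realize v}, empty_definable_iff.2 ⟨_, rfl⟩, ?_⟩
  ext q
  simp only [mem_ofPred_eq, Set.mem_ofPred_eq, Formula.realize_relabel]
  have : Sum.elim e q ∘ Sum.map g id = Sum.elim (fun x : range e => (x : M)) q := by
    funext x
    rcases x with x | x
    · simp [hg]
    · simp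
  rw [this]

lemma def_comb {α : Type} {P A B : Set (α → M)} (hP : (∅ : Set M).Definable L P)
    (hA : (∅ : Set M).Definable L A) (hB : (∅ : Set M).Definable L B) :
    (∅ : Set M).Definable L {w | w ∈ P → (w ∈ A ↔ w ∈ B)} := by
  have : {w | w ∈ P → (w ∈ A ↔ w ∈ B)} = Pᶜ ∪ ((A ∩ B) ∪ (Aᶜ ∩ Bᶜ)) := by
    ext w
    simp only [mem_ofPred_eq, mem_union, mem_inter_iff, mem_compl_iff]
    tauto
  rw [this]
  exact hP.compl.union ((hA.inter hB).union (hA.compl.inter hB.compl))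

lemma def_sorts {φ : ℕ → Set M} (hφ : ∀ i, (∅ : Set M).Definable₁ L (φ i)) {r : ℕ} (τ : Fin r → ℕ) :
    (∅ : Set M).Definable L {q : Fin r → M | ∀ j, q j ∈ φ (τ j)} := by
  have : {q : Fin r → M | ∀ j, q j ∈ φ (τ j)} = ⋂ j, {q : Fin r → M | q j ∈ φ (τ j)} := by
    ext q; simp
  rw [this]
  refine definable_iInter_of_finite (fun j => ?_)
  exact (hφ (τ j)).preimage_comp (fun _ : Fin 1 => j)

/-- the family condition `D x = E z` is definable -/
lemma def_W {γ : Type} {k t r : ℕ} {S : Set (Fin r → M)} {Δ : Set (Fin k ⊕ Fin r → M)} {E : Set (Fin t ⊕ Fin r → M)}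
    (hS : (∅ : Set M).Definable L S) (hΔ : (∅ : Set M).Definable L Δ) (hE : (∅ : Set M).Definable L E)
    (f : Fin k → γ) (g : Fin t → γ) :
    (∅ : Set M).Definable L
      {v : γ → M | ∀ q : Fin r → M, q ∈ S → (Sum.elim (v ∘ f) q ∈ Δ ↔ Sum.elim (v ∘ g) q ∈ E)} := by
  have h := (def_comb (hS.preimage_comp (fun i : Fin r => (Sum.inr i : γ ⊕ Fin r)))
    (hΔ.preimage_comp (Sum.map f id)) (hE.preimage_comp (Sum.map g id))).forall_of_finite
  refine Eq.mp (congrArg (fun s : Set (γ → M) => (∅ : Set M).Definable L s) ?_) h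
  ext v
  symm
  simp only [mem_ofPred_eq, mem_preimage]
  refine forall_congr' (fun q => ?_)
  have e1 : Sum.elim v q ∘ (fun i : Fin r => (Sum.inr i : γ ⊕ Fin r)) = q := by funext i; rfl
  have e2 : Sum.elim v q ∘ Sum.map f id = Sum.elim (v ∘ f) q := by
    funext i; rcases i with i | i <;> rfl
  have e3 : Sum.elim v q ∘ Sum.map g id = Sum.elim (v ∘ g) q := by
    funext i; rcases i with i | i <;> rfl
  rw [e1, e2, e3]

/-- automorphisms of `Q` and sets of tuples with a split index -/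
lemma aut_sum {Q : Set M} {σ : Equiv.Perm Q} (hσ : σ ∈ AutQ L Q) {t r : ℕ} {E : Set (Fin t ⊕ Fin r → M)}
    (hE : (∅ : Set M).Definable L E) (e : Fin t → Q) (q : Fin r → Q) :
    (Sum.elim (fun i => (e i : M)) (fun j => (q j : M)) ∈ E ↔
      Sum.elim (fun i => ((σ (e i) : Q) : M)) (fun j => ((σ (q j) : Q) : M)) ∈ E) := by
  have h := hσ (t + r) _ (hE.preimage_comp (finSumFinEquiv : Fin t ⊕ Fin r ≃ Fin (t + r)))
    (fun i => Sum.elim e q (finSumFinEquiv.symm i))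
  simp only [mem_preimage] at h
  have e1 : (fun j : Fin (t + r) => ((Sum.elim e q (finSumFinEquiv.symm j) : Q) : M)) ∘
      (finSumFinEquiv : Fin t ⊕ Fin r ≃ Fin (t + r)) = Sum.elim (fun i => (e i : M)) (fun j => (q j : M)) := by
    funext i; rcases i with i | i <;> simp
  have e2 : (fun j : Fin (t + r) => ((σ (Sum.elim e q (finSumFinEquiv.symm j)) : Q) : M)) ∘
      (finSumFinEquiv : Fin t ⊕ Fin r ≃ Fin (t + r)) =
      Sum.elim (fun i => ((σ (e i) : Q) : M)) (fun j => ((σ (q j) : Q) : M)) := by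
    funext i; rcases i with i | i <;> simp
  rw [e1, e2] at h
  exact h

lemma aut_sorts {φ : ℕ → Set M} (hφ : ∀ i, (∅ : Set M).Definable₁ L (φ i)) {σ : Equiv.Perm (QQ φ)}
    (hσ : σ ∈ AutQ L (QQ φ)) {r : ℕ} (τ : Fin r → ℕ) (q : Fin r → QQ φ) :
    (∀ j, ((q j : QQ φ) : M) ∈ φ (τ j)) ↔ ∀ j, ((σ (q j) : QQ φ) : M) ∈ φ (τ j) :=
  hσ r _ (def_sorts hφ τ) q

/-- groups: simultaneous motion of finitely many relations with infinite orbits -/
lemma exists_move {Q : Set M} {r : ℕ → ℕ} {D : ∀ n, Set (Fin (r n) → M)} {F S : Finset ℕ}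
    (h : ∀ n ∈ S, {X | ∃ σ : Equiv.Perm Q, Fixes L Q D F σ ∧ X = mv D σ n}.Infinite) :
    ∃ σ : Equiv.Perm Q, Fixes L Q D F σ ∧ ∀ n ∈ S, mv D σ n ≠ tr D n := by
  classical
  -- `mv` of products
  have hmul : ∀ (σ ρ : Equiv.Perm Q) (n : ℕ), mv D (σ * ρ) n = {q | (fun j => ρ (q j)) ∈ mv D σ n} :=
    fun σ ρ n => rfl
  have htr : ∀ (ρ : Equiv.Perm Q) (n : ℕ), {q | (fun j => ρ (q j)) ∈ tr D n} = mv D ρ n := fun ρ n => rfl
  let Γ : Subgroup (Equiv.Perm Q) :=
    { carrier := {σ | Fixes L Q D F σ}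
      one_mem' := ⟨(AutQ L Q).one_mem, fun _ _ => rfl⟩
      mul_mem' := by
        rintro σ ρ ⟨h1, h2⟩ ⟨h3, h4⟩
        refine ⟨(AutQ L Q).mul_mem h1 h3, fun m hm => ?_⟩
        rw [hmul, h2 m hm, htr, h4 m hm]
      inv_mem' := by
        rintro σ ⟨h1, h2⟩
        refine ⟨(AutQ L Q).inv_mem h1, fun m hm => ?_⟩
        have h5 : mv D (σ * σ⁻¹) m = mv D σ⁻¹ m := by rw [hmul, h2 m hm, htr]
        rw [← h5, mul_inv_cancel]
        rfl }
  let H : ℕ → Subgroup Γ := fun n =>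
    { carrier := {σ | mv D (σ : Equiv.Perm Q) n = tr D n}
      one_mem' := rfl
      mul_mem' := by
        intro σ ρ h1 h2
        have h1' : mv D (σ : Equiv.Perm Q) n = tr D n := h1
        have h2' : mv D (ρ : Equiv.Perm Q) n = tr D n := h2
        show mv D ((σ : Equiv.Perm Q) * (ρ : Equiv.Perm Q)) n = tr D n
        rw [hmul, h1', htr, h2']
      inv_mem' := by
        intro σ h1
        have h1' : mv D (σ : Equiv.Perm Q) n = tr D n := h1
        show mv D ((σ : Equiv.Perm Q)⁻¹) n = tr D n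
        have h5 : mv D ((σ : Equiv.Perm Q) * (σ : Equiv.Perm Q)⁻¹) n = mv D (σ : Equiv.Perm Q)⁻¹ n := by
          rw [hmul, h1', htr]
        rw [← h5, mul_inv_cancel]
        rfl }
  by_contra hcon
  push Not at hcon
  have hcov : ⋃ n ∈ S, (1 : Γ) • ((H n : Subgroup Γ) : Set Γ) = Set.univ := by
    rw [Set.eq_univ_iff_forall]
    intro σ
    obtain ⟨n, hn, hσ⟩ := hcon σ.1 σ.2
    rw [Set.mem_iUnion₂]
    refine ⟨n, hn, ?_⟩
    rw [one_smul]
    exact hσ
  obtain ⟨n, hn, hfin⟩ := Subgroup.exists_finiteIndex_of_leftCoset_cover (g := fun _ => (1 : Γ)) hcov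
  apply h n hn
  -- the orbit is finite
  let f : Γ → Set (Fin (r n) → Q) := fun σ => mv D ((σ : Equiv.Perm Q)⁻¹) n
  have hf : ∀ σ ρ : Γ, σ⁻¹ * ρ ∈ H n → f σ = f ρ := by
    intro σ ρ hh
    have h1 : mv D ((σ : Equiv.Perm Q)⁻¹ * (ρ : Equiv.Perm Q)) n = tr D n := hh
    have h2 : (σ : Equiv.Perm Q)⁻¹ = ((σ : Equiv.Perm Q)⁻¹ * (ρ : Equiv.Perm Q)) * (ρ : Equiv.Perm Q)⁻¹ := by
      group
    show mv D ((σ : Equiv.Perm Q)⁻¹) n = mv D ((ρ : Equiv.Perm Q)⁻¹) n
    rw [h2, hmul, h1, htr]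
  have := hfin
  have : Finite (Γ ⧸ H n) := Subgroup.finite_quotient_of_finiteIndex
  have hr : (Set.range f).Finite := by
    have : Set.range f ⊆ Set.range (fun x : Γ ⧸ H n => f x.out) := by
      rintro _ ⟨σ, rfl⟩
      refine ⟨(σ : Γ ⧸ H n), ?_⟩
      apply hf
      exact QuotientGroup.eq.1 (QuotientGroup.out_eq' _)
    exact (Set.finite_range _).subset this
  refine hr.subset ?_
  rintro X ⟨σ, hσ, rfl⟩
  exact ⟨(⟨σ, hσ⟩ : Γ)⁻¹, by simp [f]⟩

/-- transfer: an automorphism of `Q` acts on finitely many relations as a change of the parameter -/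
lemma transfer {φ : ℕ → Set M} (hφ : ∀ i, (∅ : Set M).Definable₁ L (φ i)) {k : ℕ} (a : Fin k → M) {r : ℕ → ℕ}
    (τ : ∀ n, Fin (r n) → ℕ) (D : ∀ n, Set (Fin (r n) → M)) (Δ : ∀ n, Set (Fin k ⊕ Fin (r n) → M))
    (hΔ : ∀ n, (∅ : Set M).Definable L (Δ n)) (hD : ∀ n, D n = {q | Sum.elim a q ∈ Δ n})
    (hs : ∀ n, ∀ q ∈ D n, ∀ j, q j ∈ φ (τ n j))
    (hQ : ∀ n, (QQ φ).Definable L (D n)) (N : Finset ℕ) {σ : Equiv.Perm (QQ φ)} (hσ : σ ∈ AutQ L (QQ φ)) :
    ∃ b : Fin k → M, ∀ n ∈ N,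
      ((∀ q : Fin (r n) → M, (∀ j, q j ∈ φ (τ n j)) → (Sum.elim a q ∈ Δ n ↔ Sum.elim b q ∈ Δ n)) ↔
        mv D σ n = tr D n) := by
  classical
  -- a common finite tuple of parameters in `Q`
  have h1 : ∀ n, ∃ A : Finset M, (A : Set M) ⊆ QQ φ ∧ (A : Set M).Definable L (D n) := fun n =>
    definable_iff_finitely_definable.1 (hQ n)
  choose A hA1 hA2 using h1
  let B : Finset M := N.biUnion A
  have hB1 : ∀ x ∈ B, x ∈ QQ φ := by
    intro x hx
    obtain ⟨n, _, hn⟩ := Finset.mem_biUnion.1 hx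
    exact hA1 n hn
  let e : Fin B.card → M := fun i => (B.equivFin.symm i : M)
  have he : range e = (B : Set M) := by
    ext x
    constructor
    · rintro ⟨i, rfl⟩
      exact (B.equivFin.symm i).2
    · intro hx
      exact ⟨B.equivFin ⟨x, hx⟩, by simp [e]⟩
  have heQ : ∀ i, e i ∈ QQ φ := fun i => hB1 _ (B.equivFin.symm i).2
  let eQ : Fin B.card → QQ φ := fun i => ⟨e i, heQ i⟩
  have h2 : ∀ n : N, ∃ E : Set (Fin B.card ⊕ Fin (r n) → M), (∅ : Set M).Definable L E ∧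
      D n = {q | Sum.elim e q ∈ E} := by
    intro n
    refine ex_fam e ?_
    rw [he]
    refine (hA2 n).mono ?_
    intro x hx
    exact Finset.mem_biUnion.2 ⟨n, n.2, hx⟩
  choose E hE1 hE2 using h2
  -- the set of parameters
  have h3 : (∅ : Set M).Definable L {z : Fin B.card → M | ∃ x : Fin k → M, Sum.elim z x ∈
      ⋂ n ∈ (Finset.univ : Finset N), {v : Fin B.card ⊕ Fin k → M | ∀ q : Fin (r n) → M,
        q ∈ {q : Fin (r n) → M | ∀ j, q j ∈ φ (τ n j)} →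
          (Sum.elim (v ∘ Sum.inr) q ∈ Δ n ↔ Sum.elim (v ∘ Sum.inl) q ∈ E n)}} := by
    refine Definable.exists_of_finite (definable_biInter_finset (fun n => ?_) _)
    exact def_W (def_sorts hφ (τ n)) (hΔ n) (hE1 n) Sum.inr Sum.inl
  have h4 : (fun j => ((eQ j : QQ φ) : M)) ∈ {z : Fin B.card → M | ∃ x : Fin k → M, Sum.elim z x ∈
      ⋂ n ∈ (Finset.univ : Finset N), {v : Fin B.card ⊕ Fin k → M | ∀ q : Fin (r n) → M,
        q ∈ {q : Fin (r n) → M | ∀ j, q j ∈ φ (τ n j)} →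
          (Sum.elim (v ∘ Sum.inr) q ∈ Δ n ↔ Sum.elim (v ∘ Sum.inl) q ∈ E n)}} := by
    refine ⟨a, ?_⟩
    rw [Set.mem_iInter₂]
    intro n _ q _
    have e1 : Sum.elim a q ∈ Δ n ↔ q ∈ D n := by rw [hD n]; rfl
    have e2 : Sum.elim e q ∈ E n ↔ q ∈ D n := by rw [hE2 n]; rfl
    exact e1.trans e2.symm
  obtain ⟨b, hb⟩ := (hσ _ _ h3 eQ).1 h4
  rw [Set.mem_iInter₂] at hb
  refine ⟨b, fun n hn => ?_⟩
  have hb' := hb ⟨n, hn⟩ (Finset.mem_univ _)
  -- `D n (b)` is `σ (D n)`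
  have key : ∀ q : Fin (r n) → QQ φ, (∀ j, ((q j : QQ φ) : M) ∈ φ (τ n j)) →
      (Sum.elim b (fun j => ((σ (q j) : QQ φ) : M)) ∈ Δ n ↔ (fun j => (q j : M)) ∈ D n) := by
    intro q hq
    have hq' := (aut_sorts hφ hσ (τ n) q).1 hq
    have h5 := hb' (fun j => ((σ (q j) : QQ φ) : M)) hq'
    have h6 := aut_sum hσ (hE1 ⟨n, hn⟩) eQ q
    have e2 : Sum.elim e (fun j => (q j : M)) ∈ E ⟨n, hn⟩ ↔ (fun j => (q j : M)) ∈ D n := by
      rw [hE2 ⟨n, hn⟩]; rfl
    exact (h5.trans h6.symm).trans e2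
  constructor
  · intro h
    ext q
    show (fun j => ((σ (q j) : QQ φ) : M)) ∈ D n ↔ (fun j => (q j : M)) ∈ D n
    by_cases hq : ∀ j, ((q j : QQ φ) : M) ∈ φ (τ n j)
    · have hq' := (aut_sorts hφ hσ (τ n) q).1 hq
      rw [← key q hq, ← h _ hq', hD n]
      rfl
    · constructor
      · intro h7
        exact absurd ((aut_sorts hφ hσ (τ n) q).2 (hs n _ h7)) hq
      · intro h7
        exact absurd (hs n _ h7) hq
  · intro h q hq
    have hqQ : ∀ j, q j ∈ QQ φ := fun j => ⟨_, hq j⟩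
    let q0 : Fin (r n) → QQ φ := fun j => σ⁻¹ ⟨q j, hqQ j⟩
    have e0 : (fun j => ((σ (q0 j) : QQ φ) : M)) = q := by
      funext j
      simp [q0]
    have hq0 : ∀ j, ((q0 j : QQ φ) : M) ∈ φ (τ n j) := by
      refine (aut_sorts hφ hσ (τ n) q0).2 (fun j => ?_)
      have h11 : ((σ (q0 j) : QQ φ) : M) = q j := congrFun e0 j
      rw [h11]
      exact hq j
    have h8 := key q0 hq0
    rw [e0] at h8
    rw [h8]
    have h9 : q0 ∈ mv D σ n ↔ q0 ∈ tr D n := by rw [h]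
    have h10 : (fun j => ((σ (q0 j) : QQ φ) : M)) ∈ D n ↔ (fun j => (q0 j : M)) ∈ D n := h9
    rw [e0] at h10
    rw [← h10, hD n]
    rfl

/-- independent relations can be moved independently -/
lemma exists_pattern {Q : Set M} {r : ℕ → ℕ} {D : ∀ n, Set (Fin (r n) → M)} {I : Set ℕ}
    (h : ∀ n ∈ I, ∀ F : Finset ℕ, (∀ m ∈ F, m ∈ I ∧ m ≠ n) →
      ∃ σ : Equiv.Perm Q, Fixes L Q D F σ ∧ mv D σ n ≠ tr D n)
    (N : Finset ℕ) (hN : ∀ n ∈ N, n ∈ I) (S : Set ℕ) :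
    ∃ σ : Equiv.Perm Q, σ ∈ AutQ L Q ∧ ∀ n ∈ N, (mv D σ n = tr D n ↔ n ∈ S) := by
  classical
  have hmul : ∀ (σ ρ : Equiv.Perm Q) (n : ℕ), mv D (σ * ρ) n = {q | (fun j => ρ (q j)) ∈ mv D σ n} :=
    fun σ ρ n => rfl
  have htr : ∀ (ρ : Equiv.Perm Q) (n : ℕ), {q | (fun j => ρ (q j)) ∈ tr D n} = mv D ρ n := fun ρ n => rfl
  have key : ∀ R : Finset ℕ, R ⊆ N → ∃ σ : Equiv.Perm Q, σ ∈ AutQ L Q ∧ ∀ n ∈ N, (mv D σ n = tr D n ↔ n ∉ R) := by
    intro R
    induction R using Finset.induction_on with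
    | empty => exact fun _ => ⟨1, (AutQ L Q).one_mem, fun n _ => ⟨fun _ => Finset.notMem_empty n, fun _ => rfl⟩⟩
    | insert n0 R hn0 ih =>
      intro hR
      obtain ⟨σ, hσ, h1⟩ := ih (fun x hx => hR (Finset.mem_insert_of_mem hx))
      have hn0N : n0 ∈ N := hR (Finset.mem_insert_self _ _)
      obtain ⟨ρ, ⟨hρ, hfix⟩, hmove⟩ := h n0 (hN n0 hn0N) (N.erase n0)
        (fun m hm => ⟨hN m (Finset.mem_of_mem_erase hm), Finset.ne_of_mem_erase hm⟩)
      refine ⟨σ * ρ, (AutQ L Q).mul_mem hσ hρ, fun n hn => ?_⟩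
      rw [hmul]
      by_cases h2 : n = n0
      · subst h2
        rw [(h1 n hn).2 hn0, htr]
        exact ⟨fun h3 => absurd h3 hmove, fun h3 => absurd (Finset.mem_insert_self _ _) h3⟩
      · have h3 : mv D ρ n = tr D n := hfix n (Finset.mem_erase.2 ⟨h2, hn⟩)
        have h4 : n ∉ insert n0 R ↔ n ∉ R := by
          rw [Finset.mem_insert]
          tauto
        rw [h4, ← h1 n hn]
        constructor
        · intro h5
          ext q
          have h6 : (fun j => ρ⁻¹ (q j)) ∈ {q | (fun j => ρ (q j)) ∈ mv D σ n} ↔ (fun j => ρ⁻¹ (q j)) ∈ tr D n := by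
            rw [h5]
          have h7 : (fun j => ρ⁻¹ (q j)) ∈ mv D ρ n ↔ (fun j => ρ⁻¹ (q j)) ∈ tr D n := by rw [h3]
          have h8 : (fun j => ρ (ρ⁻¹ (q j))) = q := by funext j; simp
          have h9 : (fun j => ρ⁻¹ (q j)) ∈ {q | (fun j => ρ (q j)) ∈ mv D σ n} ↔ q ∈ mv D σ n := by
            show (fun j => ρ (ρ⁻¹ (q j))) ∈ mv D σ n ↔ q ∈ mv D σ n
            rw [h8]
          have h10 : (fun j => ρ⁻¹ (q j)) ∈ mv D ρ n ↔ q ∈ tr D n := by
            rw [← htr]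
            show (fun j => ρ (ρ⁻¹ (q j))) ∈ tr D n ↔ q ∈ tr D n
            rw [h8]
          rw [← h9, h6, ← h7, h10]
        · intro h5
          rw [h5, htr, h3]
  obtain ⟨σ, hσ, h1⟩ := key (N.filter (· ∉ S)) (Finset.filter_subset _ _)
  refine ⟨σ, hσ, fun n hn => (h1 n hn).trans ?_⟩
  rw [Finset.mem_filter]
  tauto

/-- compactness: a pattern which is finitely realized is realized by a complete type -/
lemma exists_type [Nonempty M] {m : ℕ} (ψ : ℕ → L.Formula (Fin m)) (I J : Set ℕ)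
    (h : ∀ N : Finset ℕ, (∀ n ∈ N, n ∈ I) → ∃ v : Fin m → M, ∀ n ∈ N, ((ψ n).Realize v ↔ n ∈ J)) :
    ∃ p : (L.completeTheory M).CompleteType (Fin m), ∀ n ∈ I, (n ∈ J ↔ Formula.equivSentence (ψ n) ∈ p) := by
  classical
  let g : ℕ → L[[Fin m]].Sentence := fun n =>
    if n ∈ J then Formula.equivSentence (ψ n) else (Formula.equivSentence (ψ n)).not
  have hsat : ((L.lhomWithConstants (Fin m)).onTheory (L.completeTheory M) ∪ g '' I).IsSatisfiable := by
    rw [Theory.isSatisfiable_iff_isFinitelySatisfiable]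
    intro T0 hT0
    have h1 : ∀ x : L[[Fin m]].Sentence, ∃ n : ℕ, x ∈ g '' I → n ∈ I ∧ g n = x := by
      intro x
      by_cases hx : x ∈ g '' I
      · obtain ⟨n, hn⟩ := hx
        exact ⟨n, fun _ => hn⟩
      · exact ⟨0, fun h => absurd h hx⟩
    choose i hi using h1
    obtain ⟨v, hv⟩ := h ((T0.filter (· ∈ g '' I)).image i) (by
      intro n hn
      obtain ⟨x, hx, rfl⟩ := Finset.mem_image.1 hn
      exact (hi x (Finset.mem_filter.1 hx).2).1)
    let _ : (constantsOn (Fin m)).Structure M := constantsOn.structure v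
    have hreal : ∀ n, M ⊨ (Formula.equivSentence (ψ n) : L[[Fin m]].Sentence) ↔ (ψ n).Realize v := by
      intro n
      have h2 := Formula.realize_equivSentence_symm M (Formula.equivSentence (ψ n)) v
      rw [Equiv.symm_apply_apply] at h2
      exact h2.symm
    have hmod : M ⊨ (T0 : L[[Fin m]].Theory) := by
      rw [Theory.model_iff]
      intro x hx
      rcases hT0 hx with hx' | hx'
      · have : M ⊨ (L.lhomWithConstants (Fin m)).onTheory (L.completeTheory M) :=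
          (LHom.onTheory_model _ _).2 inferInstance
        exact this.realize_of_mem x hx'
      · have h3 := (hi x hx').2
        rw [← h3]
        have h4 := hv (i x) (Finset.mem_image_of_mem i (Finset.mem_filter.2 ⟨hx, hx'⟩))
        by_cases h5 : i x ∈ J
        · simp only [g, if_pos h5]
          exact (hreal _).2 (h4.2 h5)
        · simp only [g, if_neg h5]
          rw [Sentence.realize_not, hreal]
          exact fun h6 => h5 (h4.1 h6)
    exact Theory.Model.isSatisfiable M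
  have hne : {p : (L.completeTheory M).CompleteType (Fin m) | g '' I ⊆ ↑p} ≠ ∅ := by
    intro h0
    exact (Theory.CompleteType.setOfPred_subset_eq_empty_iff (g '' I)).1 h0 hsat
  obtain ⟨p, hp⟩ := Set.nonempty_iff_ne_empty.2 hne
  refine ⟨p, fun n hI => ?_⟩
  have h1 : g n ∈ p := hp ⟨n, hI, rfl⟩
  constructor
  · intro hn
    simp only [g, if_pos hn] at h1
    exact h1
  · intro hn
    by_contra hJ
    simp only [g, if_neg hJ] at h1
    exact (Theory.CompleteType.not_mem_iff p _).1 h1 hn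

/-- the number of patterns is countable -/
lemma countable_patterns [Nonempty M] (small : ∀ n : ℕ, Countable ((L.completeTheory M).CompleteType (Fin n)))
    {φ : ℕ → Set M} (hφ : ∀ i, (∅ : Set M).Definable₁ L (φ i)) {k : ℕ} (a : Fin k → M)
    {r : ℕ → ℕ} (τ : ∀ n, Fin (r n) → ℕ) (D : ∀ n, Set (Fin (r n) → M))
    (hs : ∀ n, ∀ q ∈ D n, ∀ j, q j ∈ φ (τ n j))
    (ha : ∀ n, (range a).Definable L (D n)) (hQ : ∀ n, (QQ φ).Definable L (D n)) (I : Set ℕ) (P : Set (Set ℕ))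
    (hP : ∀ J ∈ P, ∀ N : Finset ℕ, (∀ n ∈ N, n ∈ I) →
      ∃ σ : Equiv.Perm (QQ φ), σ ∈ AutQ L (QQ φ) ∧ ∀ n ∈ N, (mv D σ n = tr D n ↔ n ∈ J)) :
    {X : Set ℕ | ∃ J ∈ P, X = J ∩ I}.Countable := by
  classical
  have h1 : ∀ n, ∃ Δ : Set (Fin k ⊕ Fin (r n) → M), (∅ : Set M).Definable L Δ ∧ D n = {q | Sum.elim a q ∈ Δ} :=
    fun n => ex_fam a (ha n)
  choose Δ hΔ hD using h1
  -- the formulas `D n (x) = D n (y)`
  have h2 : ∀ n, ∃ ψ : L.Formula (Fin (k + k)), ∀ v : Fin (k + k) → M, ψ.Realize v ↔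
      ∀ q : Fin (r n) → M, (∀ j, q j ∈ φ (τ n j)) →
        (Sum.elim (fun i => v (Fin.castAdd k i)) q ∈ Δ n ↔ Sum.elim (fun i => v (Fin.natAdd k i)) q ∈ Δ n) := by
    intro n
    have h3 := def_W (γ := Fin (k + k)) (def_sorts hφ (τ n)) (hΔ n) (hΔ n) (Fin.castAdd k) (Fin.natAdd k)
    obtain ⟨ψ, hψ⟩ := empty_definable_iff.1 h3
    refine ⟨ψ, fun v => ?_⟩
    have h4 : v ∈ {v : Fin (k + k) → M | ∀ q : Fin (r n) → M, q ∈ {q : Fin (r n) → M | ∀ j, q j ∈ φ (τ n j)} →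
      (Sum.elim (v ∘ Fin.castAdd k) q ∈ Δ n ↔ Sum.elim (v ∘ Fin.natAdd k) q ∈ Δ n)} ↔ ψ.Realize v := by
      rw [hψ]; rfl
    exact h4.symm
  choose ψ hψ using h2
  have h5 : {X : Set ℕ | ∃ J ∈ P, X = J ∩ I} ⊆
      Set.range (fun p : (L.completeTheory M).CompleteType (Fin (k + k)) =>
        {n : ℕ | n ∈ I ∧ Formula.equivSentence (ψ n) ∈ p}) := by
    rintro X ⟨J, hJ, rfl⟩
    have hfin : ∀ N : Finset ℕ, (∀ n ∈ N, n ∈ I) →
        ∃ v : Fin (k + k) → M, ∀ n ∈ N, ((ψ n).Realize v ↔ n ∈ J) := by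
      intro N hN
      obtain ⟨σ, hσ, hpat⟩ := hP J hJ N hN
      obtain ⟨b, hb⟩ := transfer hφ a τ D Δ hΔ hD hs hQ N hσ
      refine ⟨fun i => Sum.elim a b (finSumFinEquiv.symm i), fun n hn => ?_⟩
      rw [hψ]
      have e1 : (fun i => Sum.elim a b (finSumFinEquiv.symm (Fin.castAdd k i))) = a := by
        funext i
        rw [finSumFinEquiv_symm_apply_castAdd]
        rfl
      have e2 : (fun i => Sum.elim a b (finSumFinEquiv.symm (Fin.natAdd k i))) = b := by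
        funext i
        rw [finSumFinEquiv_symm_apply_natAdd]
        rfl
      rw [e1, e2, hb n hn]
      exact hpat n hn
    obtain ⟨p, hp⟩ := exists_type (M := M) ψ I J hfin
    refine ⟨p, ?_⟩
    ext n
    constructor
    · rintro ⟨h1, h2⟩
      exact ⟨(hp n h1).2 h2, h1⟩
    · rintro ⟨h1, h2⟩
      exact ⟨h2, (hp n h2).1 h1⟩
  have := small (k + k)
  exact (Set.countable_range _).mono h5

lemma det_mono {Q : Set M} {r : ℕ → ℕ} {D : ∀ n, Set (Fin (r n) → M)} {A B : Set ℕ} (hAB : A ⊆ B) {i : ℕ}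
    (h : Det L Q D A i) : Det L Q D B i := by
  obtain ⟨F, hF, h1⟩ := h
  exact ⟨F, fun m hm => hAB (hF m hm), h1⟩

lemma det_self {Q : Set M} {r : ℕ → ℕ} {D : ∀ n, Set (Fin (r n) → M)} {A : Set ℕ} {i : ℕ} (hi : i ∈ A) :
    Det L Q D A i :=
  ⟨{i}, fun m hm => by rw [Finset.mem_singleton.1 hm]; exact hi,
    fun _ hσ => hσ.2 i (Finset.mem_singleton_self i)⟩

/-- no infinite independent family: hereditary form -/
lemma hereditary {Q : Set M} {r : ℕ → ℕ} {D : ∀ n, Set (Fin (r n) → M)}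
    (hb : ∀ I : Set ℕ, I.Infinite → ∃ n ∈ I, Det L Q D (I \ {n}) n) (I0 : Set ℕ) (hI0 : I0.Infinite) :
    ∃ (G : Finset ℕ) (I : Set ℕ), (∀ m ∈ G, m ∈ I0) ∧ I ⊆ I0 ∧ I.Infinite ∧
      ∀ I' ⊆ I, I'.Infinite → ∀ i ∈ I, Det L Q D ((G : Set ℕ) ∪ I') i := by
  classical
  by_contra hcon
  push Not at hcon
  let St := {x : Finset ℕ × Set ℕ // (∀ m ∈ x.1, m ∈ I0) ∧ x.2 ⊆ I0 ∧ x.2.Infinite}
  have h1 : ∀ x : St, ∃ (I' : Set ℕ) (i : ℕ), I' ⊆ x.1.2 ∧ I'.Infinite ∧ i ∈ x.1.2 ∧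
      ¬ Det L Q D ((x.1.1 : Set ℕ) ∪ I') i := by
    intro x
    obtain ⟨I', h2, h3, i, h4, h5⟩ := hcon x.1.1 x.1.2 x.2.1 x.2.2.1 x.2.2.2
    exact ⟨I', i, h2, h3, h4, h5⟩
  choose nI pk hsub hinf hmem hnot using h1
  let step : St → St := fun x => ⟨(insert (pk x) x.1.1, nI x), by
    refine ⟨fun m hm => ?_, (hsub x).trans x.2.2.1, hinf x⟩
    rcases Finset.mem_insert.1 hm with rfl | hm
    · exact x.2.2.1 (hmem x)
    · exact x.2.1 m hm⟩
  let st : ℕ → St := fun n => Nat.rec ⟨(∅, I0), by simp, subset_rfl, hI0⟩ (fun _ x => step x) n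
  have hst : ∀ n, st (n + 1) = step (st n) := fun n => rfl
  let i : ℕ → ℕ := fun n => pk (st n)
  have hI : ∀ n m, n ≤ m → (st m).1.2 ⊆ (st n).1.2 := by
    intro n m hnm
    induction m, hnm using Nat.le_induction with
    | base => exact subset_rfl
    | succ m _ ih => exact Set.Subset.trans (by rw [hst]; exact hsub (st m)) ih
  have hG : ∀ m n, m < n → i m ∈ (st n).1.1 := by
    intro m n hmn
    induction n, hmn using Nat.le_induction with
    | base =>
      show i m ∈ (st (m + 1)).1.1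
      rw [hst]
      exact Finset.mem_insert_self _ _
    | succ n _ ih =>
      rw [hst]
      exact Finset.mem_insert_of_mem ih
  have hlater : ∀ n m, n < m → i m ∈ (st (n + 1)).1.2 := fun n m hnm => hI (n + 1) m hnm (hmem (st m))
  have hnotin : ∀ n, i n ∉ (st (n + 1)).1.2 := by
    intro n hn
    rw [hst] at hn
    exact hnot (st n) (det_self (Or.inr hn))
  have hinj : Function.Injective i := by
    have : ∀ n m, n < m → i n ≠ i m := fun n m hnm h => hnotin n (by rw [h]; exact hlater n m hnm)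
    intro n m h
    rcases Nat.lt_trichotomy n m with h2 | h2 | h2
    · exact absurd h (this n m h2)
    · exact h2
    · exact absurd h.symm (this m n h2)
  obtain ⟨_, ⟨n, rfl⟩, hdet⟩ := hb (Set.range i) (Set.infinite_range_of_injective hinj)
  refine hnot (st n) (det_mono ?_ hdet)
  rintro _ ⟨⟨m, rfl⟩, hm⟩
  have hmn : m ≠ n := fun h => hm (by rw [h]; exact rfl)
  rcases Nat.lt_or_gt_of_ne hmn with h2 | h2
  · exact Or.inl (hG m n h2)
  · exact Or.inr (hlater n m h2)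

end proof

end Pool.Agent.C59.Core
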